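import Mathlib

/-!
# Cantor-type functions with exact integrality

For integers `2 ≤ b ≤ m` we build `Ψ : ℝ → ℝ`, monotone, `Ψ (x+1) = Ψ x + 1`, `Ψ 0 = 0`, such that
* `y - x ≤ m^{-k}` implies `Ψ y - Ψ x ≤ b^{-k}`;
* `Ψ (l / m^k) ∈ b^{-k} ℤ` for every integer `l`.
-/

set_option autoImplicit false

open Filter Topology

namespace Pool.Agent.Helper86

/-- The four properties of the Cantor-type function used below. -/
structure CantorLike (m b : ℕ) (Ψ : ℝ → ℝ) : Prop where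
  mono : Monotone Ψ
  add_one : ∀ x, Ψ (x + 1) = Ψ x + 1
  zero : Ψ 0 = 0
  holder : ∀ (k : ℕ) (x y : ℝ), y ≤ x + 1 / (m : ℝ) ^ k → Ψ y ≤ Ψ x + 1 / (b : ℝ) ^ k
  integral : ∀ (k : ℕ) (l : ℤ), ∃ z : ℤ, Ψ ((l : ℝ) / (m : ℝ) ^ k) = (z : ℝ) / (b : ℝ) ^ k

/-- the piecewise linear map `q` of degree `b`. -/
noncomputable def qmap (m b : ℕ) (x : ℝ) : ℝ :=
  (b : ℝ) * (⌊x⌋ : ℝ) + min ((m : ℝ) * Int.fract x) (b : ℝ)

section
variable {m b : ℕ}

lemma qmap_le (x : ℝ) : qmap m b x ≤ (b : ℝ) * ⌊x⌋ + b := by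
  unfold qmap; gcongr; exact min_le_right _ _

lemma le_qmap (x : ℝ) : (b : ℝ) * ⌊x⌋ ≤ qmap m b x := by
  unfold qmap
  have : 0 ≤ min ((m : ℝ) * Int.fract x) (b : ℝ) :=
    le_min (mul_nonneg (Nat.cast_nonneg _) (Int.fract_nonneg _)) (Nat.cast_nonneg _)
  linarith

lemma qmap_mono : Monotone (qmap m b) := by
  intro x y hxy
  rcases (Int.floor_mono hxy).eq_or_lt with h | h
  · unfold qmap
    rw [h]
    have : Int.fract x ≤ Int.fract y := by
      unfold Int.fract; rw [h]; linarith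
    gcongr
  · have h1 : (⌊x⌋ : ℝ) + 1 ≤ ⌊y⌋ := by exact_mod_cast h
    have h2 : (b : ℝ) * (⌊x⌋ + 1) ≤ b * ⌊y⌋ := mul_le_mul_of_nonneg_left h1 (Nat.cast_nonneg _)
    calc qmap m b x ≤ (b : ℝ) * ⌊x⌋ + b := qmap_le x
      _ ≤ b * ⌊y⌋ := by linarith
      _ ≤ qmap m b y := le_qmap y

lemma qmap_add_int (x : ℝ) (n : ℤ) : qmap m b (x + n) = qmap m b x + b * n := by
  unfold qmap
  rw [Int.floor_add_intCast, Int.fract_add_intCast]
  push_cast; ring

lemma qmap_lip (hbm : b ≤ m) {x y : ℝ} (hxy : x ≤ y) :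
    qmap m b y ≤ qmap m b x + m * (y - x) := by
  have hbm' : (b : ℝ) ≤ m := by exact_mod_cast hbm
  have hx0 := Int.fract_nonneg x
  have hx1 := (Int.fract_lt_one x).le
  have hy0 := Int.fract_nonneg y
  have hb0 : (0 : ℝ) ≤ b := Nat.cast_nonneg _
  have hm0 : (0 : ℝ) ≤ m := Nat.cast_nonneg _
  have ex : x = ⌊x⌋ + Int.fract x := (Int.floor_add_fract x).symm
  have ey : y = ⌊y⌋ + Int.fract y := (Int.floor_add_fract y).symm
  rcases (Int.floor_mono hxy).eq_or_lt with h | h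
  · have hfr : Int.fract x ≤ Int.fract y := by
      unfold Int.fract; rw [h]; linarith
    have hd : y - x = Int.fract y - Int.fract x := by
      unfold Int.fract; rw [h]; ring
    unfold qmap
    rw [h, hd]
    have : min ((m : ℝ) * Int.fract y) (b : ℝ) ≤ min ((m : ℝ) * Int.fract x) (b : ℝ) +
        m * (Int.fract y - Int.fract x) := by
      rcases le_total ((m : ℝ) * Int.fract x) (b : ℝ) with h1 | h1
      · rw [min_eq_left h1]
        refine (min_le_left _ _).trans (by ring_nf; exact le_refl _)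
      · rw [min_eq_right h1]
        refine (min_le_right _ _).trans ?_
        have := mul_nonneg hm0 (sub_nonneg.2 hfr)
        linarith
    linarith
  · have h1 : (⌊x⌋ : ℝ) + 1 ≤ ⌊y⌋ := by exact_mod_cast h
    have hy : qmap m b y ≤ b * ⌊y⌋ + m * Int.fract y := by
      unfold qmap; gcongr; exact min_le_left _ _
    have hx : (b : ℝ) * (⌊x⌋ + 1) - m * (1 - Int.fract x) ≤ qmap m b x := by
      unfold qmap
      rcases le_total ((m : ℝ) * Int.fract x) (b : ℝ) with h1 | h1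
      · rw [min_eq_left h1]
        nlinarith
      · rw [min_eq_right h1]
        have := mul_nonneg hm0 (sub_nonneg.2 hx1)
        linarith
    have h3 : (b : ℝ) * ((⌊y⌋ : ℝ) - ⌊x⌋ - 1) ≤ m * ((⌊y⌋ : ℝ) - ⌊x⌋ - 1) :=
      mul_le_mul_of_nonneg_right hbm' (by linarith)
    have h4 : (m : ℝ) * (y - x) =
        m * ((⌊y⌋ : ℝ) - ⌊x⌋ - 1) + m * (1 - Int.fract x) + m * Int.fract y := by
        linear_combination (m : ℝ) * ey - (m : ℝ) * ex
    rw [h4]
    linarith

lemma qmap_iter_mono (k : ℕ) : Monotone ((qmap m b)^[k]) := qmap_mono.iterate k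

lemma qmap_iter_add_int (k : ℕ) (x : ℝ) (n : ℤ) :
    (qmap m b)^[k] (x + n) = (qmap m b)^[k] x + (b : ℝ) ^ k * n := by
  induction k with
  | zero => simp
  | succ k ih =>
    rw [Function.iterate_succ_apply', Function.iterate_succ_apply', ih]
    have := qmap_add_int (m := m) (b := b) ((qmap m b)^[k] x) ((b : ℤ) ^ k * n)
    push_cast at this
    rw [this]; ring

lemma qmap_iter_lip (hbm : b ≤ m) (k : ℕ) {x y : ℝ} (hxy : x ≤ y) :
    (qmap m b)^[k] y ≤ (qmap m b)^[k] x + (m : ℝ) ^ k * (y - x) := by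
  induction k with
  | zero => simp
  | succ k ih =>
    rw [Function.iterate_succ_apply', Function.iterate_succ_apply']
    have h1 := qmap_iter_mono (m := m) (b := b) k hxy
    have h2 := qmap_lip hbm h1
    have h3 : (m : ℝ) * ((qmap m b)^[k] y - (qmap m b)^[k] x) ≤ m * ((m : ℝ) ^ k * (y - x)) :=
      mul_le_mul_of_nonneg_left (by linarith) (Nat.cast_nonneg _)
    calc _ ≤ _ := h2
      _ ≤ _ := by rw [pow_succ]; linarith

lemma qmap_iter_zero (k : ℕ) : (qmap m b)^[k] 0 = 0 := by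
  induction k with
  | zero => simp
  | succ k ih =>
    rw [Function.iterate_succ_apply', ih]
    simp [qmap]

lemma qmap_dist (x : ℝ) : |qmap m b x - b * x| ≤ b := by
  have h1 := qmap_le (m := m) (b := b) x
  have h2 := le_qmap (m := m) (b := b) x
  have hb0 : (0 : ℝ) ≤ b := Nat.cast_nonneg _
  have h3 : (b : ℝ) * ⌊x⌋ ≤ b * x := mul_le_mul_of_nonneg_left (Int.floor_le x) hb0
  have h4 : (b : ℝ) * x ≤ b * (⌊x⌋ + 1) := mul_le_mul_of_nonneg_left (Int.lt_floor_add_one x).le hb0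
  rw [abs_le]; constructor <;> linarith

/-- the approximations. -/
noncomputable def psiSeq (m b : ℕ) (x : ℝ) (n : ℕ) : ℝ := (qmap m b)^[n] x / (b : ℝ) ^ n

/-- the Cantor-type function. -/
noncomputable def psi (m b : ℕ) (x : ℝ) : ℝ := limUnder atTop (psiSeq m b x)

lemma psiSeq_tendsto (hb : 2 ≤ b) (x : ℝ) : Tendsto (psiSeq m b x) atTop (𝓝 (psi m b x)) := by
  have hb0 : (0 : ℝ) < b := by positivity
  have hb2 : (2 : ℝ) ≤ b := by exact_mod_cast hb
  have : CauchySeq (psiSeq m b x) := by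
    refine cauchySeq_of_le_geometric (1 / 2) 1 (by norm_num) fun n => ?_
    rw [dist_comm, Real.dist_eq]
    have e : psiSeq m b x (n + 1) - psiSeq m b x n =
        (qmap m b ((qmap m b)^[n] x) - b * (qmap m b)^[n] x) / (b : ℝ) ^ (n + 1) := by
      unfold psiSeq
      rw [Function.iterate_succ_apply']
      field_simp
      ring
    rw [e, abs_div, abs_of_pos (pow_pos hb0 (n + 1)), one_mul, div_le_iff₀ (pow_pos hb0 _)]
    refine (qmap_dist _).trans ?_
    have h1 : (2 : ℝ) ^ n ≤ (b : ℝ) ^ n := by gcongr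
    have h2 : (1 : ℝ) ≤ (1 / 2) ^ n * (b : ℝ) ^ n := by
      rw [← mul_pow]
      exact one_le_pow₀ (by linarith)
    calc (b : ℝ) = 1 * b := by ring
      _ ≤ ((1 / 2) ^ n * (b : ℝ) ^ n) * b := by gcongr
      _ = _ := by ring
  exact this.tendsto_limUnder

lemma psi_unique (hb : 2 ≤ b) {x c : ℝ} (h : Tendsto (psiSeq m b x) atTop (𝓝 c)) :
    psi m b x = c := tendsto_nhds_unique (psiSeq_tendsto hb x) h

lemma psi_mono (hb : 2 ≤ b) : Monotone (psi m b) := by
  intro x y hxy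
  refine le_of_tendsto_of_tendsto' (psiSeq_tendsto hb x) (psiSeq_tendsto hb y) fun n => ?_
  unfold psiSeq
  have := qmap_iter_mono (m := m) (b := b) n hxy
  gcongr

lemma psi_add_int (hb : 2 ≤ b) (x : ℝ) (n : ℤ) : psi m b (x + n) = psi m b x + n := by
  have hb0 : (0 : ℝ) < b := by positivity
  refine psi_unique hb (((psiSeq_tendsto hb x).add_const (n : ℝ)).congr fun k => ?_)
  unfold psiSeq
  rw [qmap_iter_add_int]
  field_simp

lemma psi_zero (hb : 2 ≤ b) : psi m b 0 = 0 := by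
  refine psi_unique hb (tendsto_const_nhds.congr fun k => ?_)
  simp [psiSeq, qmap_iter_zero]

lemma psi_int (hb : 2 ≤ b) (n : ℤ) : psi m b n = n := by
  have := psi_add_int (m := m) hb 0 n
  simpa [psi_zero hb] using this

lemma psi_iter (hb : 2 ≤ b) (x : ℝ) (k : ℕ) :
    psi m b ((qmap m b)^[k] x) = (b : ℝ) ^ k * psi m b x := by
  have hb0 : (0 : ℝ) < b := by positivity
  refine psi_unique hb ?_
  have := ((psiSeq_tendsto (m := m) hb x).comp (tendsto_add_atTop_nat k)).const_mul ((b : ℝ) ^ k)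
  refine this.congr fun n => ?_
  simp only [psiSeq, Function.comp]
  rw [Function.iterate_add_apply, pow_add]
  field_simp

lemma qmap_rat (l : ℤ) (k : ℕ) (hm : 0 < m) : ∃ l' : ℤ,
    qmap m b ((l : ℝ) / (m : ℝ) ^ (k + 1)) = (l' : ℝ) / (m : ℝ) ^ k := by
  have hm0 : (0 : ℝ) < m := by exact_mod_cast hm
  set x : ℝ := (l : ℝ) / (m : ℝ) ^ (k + 1) with hx
  unfold qmap
  rcases min_choice ((m : ℝ) * Int.fract x) (b : ℝ) with h | h
  · refine ⟨b * ⌊x⌋ * m ^ k + l - m * ⌊x⌋ * m ^ k, ?_⟩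
    rw [h]
    have e : Int.fract x = x - ⌊x⌋ := rfl
    rw [e, eq_div_iff (by positivity)]
    have e2 : (m : ℝ) * x * (m : ℝ) ^ k = l := by
      rw [hx, pow_succ]; field_simp
    push_cast
    linear_combination e2
  · refine ⟨(b * ⌊x⌋ + b) * m ^ k, ?_⟩
    rw [h, eq_div_iff (by positivity)]
    push_cast
    ring

lemma qmap_iter_rat (hm : 0 < m) (k : ℕ) (l : ℤ) : ∃ z : ℤ,
    (qmap m b)^[k] ((l : ℝ) / (m : ℝ) ^ k) = z := by
  induction k generalizing l with
  | zero => exact ⟨l, by simp⟩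
  | succ k ih =>
    obtain ⟨l', hl'⟩ := qmap_rat (b := b) l k hm
    rw [Function.iterate_succ_apply, hl']
    exact ih l'

theorem cantorLike_psi (hb : 2 ≤ b) (hbm : b ≤ m) : CantorLike m b (psi m b) := by
  have hb0 : (0 : ℝ) < b := by positivity
  have hm : 0 < m := by omega
  have hm0 : (0 : ℝ) < m := by exact_mod_cast hm
  refine ⟨psi_mono hb, fun x => ?_, psi_zero hb, fun k x y hxy => ?_, fun k l => ?_⟩
  · have := psi_add_int (m := m) hb x 1
    simpa using this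
  · rcases le_total y x with h | h
    · have := psi_mono (m := m) hb h
      have h1 : (0 : ℝ) ≤ 1 / (b : ℝ) ^ k := by positivity
      linarith
    · have h1 := qmap_iter_lip hbm k h
      have h2 : (m : ℝ) ^ k * (y - x) ≤ 1 := by
        have : (m : ℝ) ^ k * (y - x) ≤ (m : ℝ) ^ k * (1 / (m : ℝ) ^ k) := by
          gcongr; linarith
        rwa [mul_one_div_cancel (by positivity)] at this
      have h3 : (qmap m b)^[k] y ≤ (qmap m b)^[k] x + ((1 : ℤ) : ℝ) := by push_cast; linarith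
      have h4 := psi_mono (m := m) hb h3
      rw [psi_add_int hb, psi_iter hb, psi_iter hb] at h4
      push_cast at h4
      have hbk : (0 : ℝ) < (b : ℝ) ^ k := by positivity
      rw [← sub_le_iff_le_add', le_div_iff₀ hbk]
      linarith
  · obtain ⟨z, hz⟩ := qmap_iter_rat (b := b) hm k l
    refine ⟨z, ?_⟩
    have h1 := psi_iter (m := m) hb ((l : ℝ) / (m : ℝ) ^ k) k
    rw [hz, psi_int hb] at h1
    rw [h1]
    field_simp

end

end Pool.Agent.Helper86
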