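import Mathlib

/-!
# From an `L²` modulus of continuity to `ℓ^p` Fourier coefficients
-/

set_option autoImplicit false

open Filter Topology MeasureTheory

namespace Pool.Agent.Helper86

lemma fourierCoeff_translate (g : C(UnitAddCircle, ℂ)) (t : UnitAddCircle) (n : ℤ) :
    fourierCoeff (fun x => g (x + t)) n = fourier n t * fourierCoeff g n := by
  unfold fourierCoeff
  have h1 : ∫ x : UnitAddCircle, fourier (-n) x • g (x + t) ∂AddCircle.haarAddCircle =
      ∫ x : UnitAddCircle, fourier (-n) (x - t) • g x ∂AddCircle.haarAddCircle := by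
    rw [← integral_add_right_eq_self (fun x : UnitAddCircle => fourier (-n) (x - t) • g x) t]
    simp
  rw [h1, ← integral_const_mul]
  refine integral_congr_ae (Eventually.of_forall fun x => ?_)
  simp only [smul_eq_mul]
  rw [← mul_assoc]
  congr 1
  simp only [fourier_apply]
  rw [show (-n) • (x - t) = (n • t) + (-n) • x by
    rw [smul_sub]; simp only [neg_smul]; abel]
  rw [AddCircle.toCircle_add]
  simp

/-- Bessel's inequality for the difference `g (· + t) - g`. -/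
lemma sum_sq_translate (g : C(UnitAddCircle, ℂ)) (t : ℝ) (s : Finset ℤ) :
    ∑ n ∈ s, ‖(fourier n (t : UnitAddCircle) : ℂ) - 1‖ ^ 2 * ‖fourierCoeff g n‖ ^ 2 ≤
      ∫ x in (0 : ℝ)..1, ‖g ((x + t : ℝ) : UnitAddCircle) - g (x : UnitAddCircle)‖ ^ 2 := by
  set u : C(UnitAddCircle, ℂ) :=
    ⟨fun x => g (x + (t : UnitAddCircle)) - g x, by fun_prop⟩ with hu
  have hcoef : ∀ n, fourierCoeff u n =
      ((fourier n (t : UnitAddCircle) : ℂ) - 1) * fourierCoeff g n := by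
    intro n
    have e : (u : UnitAddCircle → ℂ) =
        fun x => g (x + (t : UnitAddCircle)) - g x := rfl
    have hint : ∀ v : C(UnitAddCircle, ℂ), Integrable (v : UnitAddCircle → ℂ)
        AddCircle.haarAddCircle := fun v =>
      v.continuous.integrable_of_hasCompactSupport (HasCompactSupport.of_compactSpace _)
    have h1 : fourierCoeff u n = fourierCoeff (fun x => g (x + (t : UnitAddCircle))) n -
        fourierCoeff g n := by
      unfold fourierCoeff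
      rw [← integral_sub]
      · refine integral_congr_ae (Eventually.of_forall fun x => ?_)
        simp [hu, mul_sub]
      · exact (hint ⟨fun x => fourier (-n) x • g (x + (t : UnitAddCircle)), by fun_prop⟩)
      · exact (hint ⟨fun x => fourier (-n) x • g x, by fun_prop⟩)
    rw [h1, fourierCoeff_translate]
    ring
  have hpars := hasSum_sq_fourierCoeff
    (ContinuousMap.toLp (E := ℂ) 2 AddCircle.haarAddCircle ℂ u)
  simp_rw [fourierCoeff_toLp] at hpars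
  have h2 : ∫ x : UnitAddCircle,
      ‖(ContinuousMap.toLp (E := ℂ) 2 AddCircle.haarAddCircle ℂ u) x‖ ^ 2
        ∂AddCircle.haarAddCircle =
      ∫ x in (0 : ℝ)..1, ‖g ((x + t : ℝ) : UnitAddCircle) - g (x : UnitAddCircle)‖ ^ 2 := by
    have h3 : ∫ x : UnitAddCircle,
        ‖(ContinuousMap.toLp (E := ℂ) 2 AddCircle.haarAddCircle ℂ u) x‖ ^ 2
          ∂AddCircle.haarAddCircle = ∫ x : UnitAddCircle, ‖u x‖ ^ 2
          ∂AddCircle.haarAddCircle := by
      refine integral_congr_ae ?_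
      filter_upwards [ContinuousMap.coeFn_toLp (p := 2) (𝕜 := ℂ) AddCircle.haarAddCircle u]
        with x hx
      rw [hx]
    rw [h3, AddCircle.integral_haarAddCircle]
    have h4 := UnitAddCircle.intervalIntegral_preimage 0 (fun x : UnitAddCircle => ‖u x‖ ^ 2)
    rw [zero_add] at h4
    rw [← h4]
    simp [hu]
  rw [h2] at hpars
  refine le_trans (le_of_eq ?_) (sum_le_hasSum s (fun n _ => by positivity) hpars)
  refine Finset.sum_congr rfl fun n _ => ?_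
  rw [hcoef, norm_mul, mul_pow]

/-- lower bound for `|e^{2πint} - 1|`. -/
lemma norm_fourier_sub_one (n : ℤ) (t : ℝ) (ht : 0 ≤ t) (h : |(n : ℝ)| * t ≤ 1 / 2) :
    4 * (|(n : ℝ)| * t) ≤ ‖(fourier n (t : UnitAddCircle) : ℂ) - 1‖ := by
  have e : (fourier n (t : UnitAddCircle) : ℂ) =
      Complex.exp (Complex.I * ((2 * Real.pi * n * t : ℝ) : ℂ)) := by
    rw [fourier_coe_apply]
    congr 1
    push_cast
    ring
  rw [e, Complex.norm_exp_I_mul_ofReal_sub_one, Real.norm_eq_abs, abs_mul, abs_two]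
  have e2 : 2 * Real.pi * n * t / 2 = Real.pi * (n * t) := by ring
  rw [e2]
  have e3 : |Real.sin (Real.pi * (n * t))| = |Real.sin (Real.pi * (|(n : ℝ)| * t))| := by
    rcases abs_choice (n : ℝ) with h | h
    · rw [h]
    · rw [h]
      have : Real.pi * (-(n : ℝ) * t) = -(Real.pi * (n * t)) := by ring
      rw [this, Real.sin_neg, abs_neg]
  rw [e3]
  have hpi := Real.pi_pos
  have h0 : 0 ≤ Real.pi * (|(n : ℝ)| * t) := by positivity
  have h1 : Real.pi * (|(n : ℝ)| * t) ≤ Real.pi / 2 := by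
    calc Real.pi * (|(n : ℝ)| * t) ≤ Real.pi * (1 / 2) := by gcongr
      _ = _ := by ring
  have h2 := Real.mul_le_sin h0 h1
  have h3 : 2 / Real.pi * (Real.pi * (|(n : ℝ)| * t)) = 2 * (|(n : ℝ)| * t) := by
    field_simp
  rw [h3] at h2
  have h4 := le_abs_self (Real.sin (Real.pi * (|(n : ℝ)| * t)))
  linarith

/-- The block estimate. -/
lemma block_estimate (g : C(UnitAddCircle, ℂ)) {m : ℕ} (hm : 2 ≤ m) (K : ℕ) {A : ℝ}
    (hA : ∫ x in (0 : ℝ)..1, ‖g ((x + 1 / (2 * (m : ℝ) ^ (K + 1)) : ℝ) : UnitAddCircle) -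
      g (x : UnitAddCircle)‖ ^ 2 ≤ A) (s : Finset ℤ)
    (hs : ∀ n ∈ s, (m : ℤ) ^ K ≤ |n| ∧ |n| ≤ (m : ℤ) ^ (K + 1)) :
    ∑ n ∈ s, ‖fourierCoeff g n‖ ^ 2 ≤ (m : ℝ) ^ 2 / 4 * A := by
  have hm0 : (0 : ℝ) < m := by positivity
  set t : ℝ := 1 / (2 * (m : ℝ) ^ (K + 1)) with ht
  have ht0 : 0 < t := by positivity
  have h1 := (sum_sq_translate g t s).trans hA
  have h2 : ∑ n ∈ s, ‖fourierCoeff g n‖ ^ 2 ≤ ∑ n ∈ s, (m : ℝ) ^ 2 / 4 *
      (‖(fourier n (t : UnitAddCircle) : ℂ) - 1‖ ^ 2 * ‖fourierCoeff g n‖ ^ 2) := by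
    refine Finset.sum_le_sum fun n hn => ?_
    obtain ⟨hn1, hn2⟩ := hs n hn
    have hn1' : (m : ℝ) ^ K ≤ |(n : ℝ)| := by exact_mod_cast hn1
    have hn2' : |(n : ℝ)| ≤ (m : ℝ) ^ (K + 1) := by exact_mod_cast hn2
    have h3 : |(n : ℝ)| * t ≤ 1 / 2 := by
      rw [ht, mul_one_div, div_le_iff₀ (by positivity)]
      linarith
    have h4 := norm_fourier_sub_one n t ht0.le h3
    have h5 : 2 / (m : ℝ) ≤ 4 * (|(n : ℝ)| * t) := by
      have e : 4 * (|(n : ℝ)| * t) = 2 * |(n : ℝ)| / (m : ℝ) ^ (K + 1) := by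
        rw [ht]; field_simp; ring
      rw [e, div_le_div_iff₀ hm0 (by positivity), pow_succ]
      have := mul_le_mul_of_nonneg_right hn1' hm0.le
      linarith
    have h6 : 2 / (m : ℝ) ≤ ‖(fourier n (t : UnitAddCircle) : ℂ) - 1‖ := h5.trans h4
    have h7 : (2 / (m : ℝ)) ^ 2 ≤ ‖(fourier n (t : UnitAddCircle) : ℂ) - 1‖ ^ 2 := by gcongr
    have h8 : 1 ≤ (m : ℝ) ^ 2 / 4 * ‖(fourier n (t : UnitAddCircle) : ℂ) - 1‖ ^ 2 := by
      calc (1 : ℝ) = (m : ℝ) ^ 2 / 4 * (2 / (m : ℝ)) ^ 2 := by field_simp; norm_num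
        _ ≤ _ := by gcongr
    calc ‖fourierCoeff g n‖ ^ 2 = 1 * ‖fourierCoeff g n‖ ^ 2 := by ring
      _ ≤ ((m : ℝ) ^ 2 / 4 * ‖(fourier n (t : UnitAddCircle) : ℂ) - 1‖ ^ 2) *
          ‖fourierCoeff g n‖ ^ 2 := by gcongr
      _ = _ := by ring
  rw [← Finset.mul_sum] at h2
  exact h2.trans (by gcongr)

/-- `ℓ^p` summability of the Fourier coefficients from a geometric `L²` modulus. -/
theorem summable_of_modulus (g : C(UnitAddCircle, ℂ)) {m : ℕ} (hm : 2 ≤ m) {ρ C p : ℝ}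
    (hρ : 0 < ρ) (hC : 0 ≤ C)
    (hmod : ∀ k : ℕ, ∫ x in (0 : ℝ)..1,
      ‖g ((x + 1 / (2 * (m : ℝ) ^ k) : ℝ) : UnitAddCircle) - g (x : UnitAddCircle)‖ ^ 2 ≤
        C * ρ ^ k)
    (hp0 : 0 < p) (hp2 : p ≤ 2) (hθ : (m : ℝ) ^ (1 - p / 2) * ρ ^ (p / 2) < 1) :
    Summable fun n : ℤ => ‖fourierCoeff g n‖ ^ p := by
  have hm0 : (0 : ℝ) < m := by positivity
  have hm1 : (1 : ℝ) < m := by
    have : (2 : ℝ) ≤ m := by exact_mod_cast hm
    linarith
  set θ : ℝ := (m : ℝ) ^ (1 - p / 2) * ρ ^ (p / 2) with hθdef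
  have hθ0 : 0 < θ := by positivity
  -- block bound
  set D : ℝ := (2 : ℝ) ^ (1 - p / 2) * ((m : ℝ) ^ 2 / 4 * C) ^ (p / 2) with hD
  have hD0 : 0 ≤ D := by positivity
  have hblock : ∀ (K : ℕ) (s : Finset ℤ),
      (∀ n ∈ s, (m : ℤ) ^ K ≤ |n| ∧ |n| < (m : ℤ) ^ (K + 1)) →
      ∑ n ∈ s, ‖fourierCoeff g n‖ ^ p ≤ D * θ ^ (K + 1) := by
    intro K s hs
    have h1 := block_estimate g hm K (hmod (K + 1)) s fun n hn => ⟨(hs n hn).1, (hs n hn).2.le⟩
    have hcard : (s.card : ℝ) ≤ 2 * (m : ℝ) ^ (K + 1) := by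
      have hsub : s ⊆ Finset.Ioo (-(m : ℤ) ^ (K + 1)) ((m : ℤ) ^ (K + 1)) := by
        intro n hn
        have := (hs n hn).2
        rw [abs_lt] at this
        exact Finset.mem_Ioo.2 this
      have h2 := Finset.card_le_card hsub
      rw [Int.card_Ioo] at h2
      have h3 : ((s.card : ℤ)) ≤ 2 * (m : ℤ) ^ (K + 1) := by
        have : (0 : ℤ) < (m : ℤ) ^ (K + 1) := by positivity
        omega
      exact_mod_cast h3
    have hpow : (∑ n ∈ s, ‖fourierCoeff g n‖ ^ p) ^ (2 / p) ≤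
        (s.card : ℝ) ^ (2 / p - 1) * ∑ n ∈ s, ‖fourierCoeff g n‖ ^ 2 := by
      have h2p : 1 ≤ 2 / p := by rw [le_div_iff₀ hp0]; linarith
      have := Real.rpow_sum_le_const_mul_sum_rpow s (fun n => ‖fourierCoeff g n‖ ^ p) h2p
      have e1 : ∀ n, |‖fourierCoeff g n‖ ^ p| = ‖fourierCoeff g n‖ ^ p := fun n =>
        abs_of_nonneg (by positivity)
      simp only [e1] at this
      refine this.trans (le_of_eq ?_)
      congr 1
      refine Finset.sum_congr rfl fun n _ => ?_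
      rw [← Real.rpow_mul (norm_nonneg _), mul_div_cancel₀ _ hp0.ne']
      norm_num
    have hsum0 : 0 ≤ ∑ n ∈ s, ‖fourierCoeff g n‖ ^ p := Finset.sum_nonneg fun _ _ => by positivity
    have h5 : ∑ n ∈ s, ‖fourierCoeff g n‖ ^ p ≤
        ((2 * (m : ℝ) ^ (K + 1)) ^ (2 / p - 1) * ((m : ℝ) ^ 2 / 4 * (C * ρ ^ (K + 1)))) ^ (p / 2) := by
      have h6 : ∑ n ∈ s, ‖fourierCoeff g n‖ ^ p =
          ((∑ n ∈ s, ‖fourierCoeff g n‖ ^ p) ^ (2 / p)) ^ (p / 2) := by
        rw [← Real.rpow_mul hsum0]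
        have : 2 / p * (p / 2) = 1 := by field_simp
        rw [this, Real.rpow_one]
      rw [h6]
      have h2p : 0 ≤ 2 / p - 1 := by rw [sub_nonneg, le_div_iff₀ hp0]; linarith
      have hsq0 : 0 ≤ ∑ n ∈ s, ‖fourierCoeff g n‖ ^ 2 := Finset.sum_nonneg fun _ _ => by positivity
      refine Real.rpow_le_rpow (by positivity) (hpow.trans ?_) (by positivity)
      exact mul_le_mul (Real.rpow_le_rpow (Nat.cast_nonneg _) hcard h2p) h1 hsq0 (by positivity)
    refine h5.trans (le_of_eq ?_)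
    have e1 : (2 * (m : ℝ) ^ (K + 1)) ^ (2 / p - 1) =
        (2 : ℝ) ^ (2 / p - 1) * ((m : ℝ) ^ (2 / p - 1)) ^ (K + 1) := by
      rw [Real.mul_rpow (by norm_num) (by positivity)]
      congr 1
      rw [← Real.rpow_natCast ((m : ℝ) ^ (2 / p - 1)), ← Real.rpow_natCast, ← Real.rpow_mul hm0.le,
        ← Real.rpow_mul hm0.le, mul_comm]
    have e2 : (2 : ℝ) ^ (2 / p - 1) * ((m : ℝ) ^ (2 / p - 1)) ^ (K + 1) *
        ((m : ℝ) ^ 2 / 4 * (C * ρ ^ (K + 1))) =
        ((2 : ℝ) ^ (2 / p - 1)) * ((m : ℝ) ^ 2 / 4 * C) *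
          ((m : ℝ) ^ (2 / p - 1) * ρ) ^ (K + 1) := by
      rw [mul_pow]; ring
    rw [e1, e2, Real.mul_rpow (by positivity) (by positivity),
      Real.mul_rpow (by positivity) (by positivity), hD, hθdef]
    have hpp : (2 / p - 1) * (p / 2) = 1 - p / 2 := by field_simp
    congr 1
    · congr 1
      rw [← Real.rpow_mul (by norm_num : (0 : ℝ) ≤ 2), hpp]
    · rw [← Real.rpow_natCast, ← Real.rpow_mul (by positivity), mul_comm ((K + 1 : ℕ) : ℝ),
        Real.rpow_mul (by positivity), Real.rpow_natCast]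
      congr 1
      rw [Real.mul_rpow (by positivity) hρ.le, ← Real.rpow_mul hm0.le, hpp]
  -- partial sums over `|n| < m^K`
  have hpart : ∀ K : ℕ, ∑ n ∈ Finset.Ioo (-(m : ℤ) ^ K) ((m : ℤ) ^ K), ‖fourierCoeff g n‖ ^ p ≤
      ‖fourierCoeff g 0‖ ^ p + D * ∑ i ∈ Finset.range K, θ ^ (i + 1) := by
    intro K
    induction K with
    | zero =>
      have : Finset.Ioo (-(m : ℤ) ^ 0) ((m : ℤ) ^ 0) = {0} := by
        ext n; simp; omega
      rw [this]; simp
    | succ K ih =>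
      have hmK : (m : ℤ) ^ K ≤ (m : ℤ) ^ (K + 1) := by
        apply pow_le_pow_right₀ <;> omega
      have hsub : Finset.Ioo (-(m : ℤ) ^ K) ((m : ℤ) ^ K) ⊆
          Finset.Ioo (-(m : ℤ) ^ (K + 1)) ((m : ℤ) ^ (K + 1)) := by
        intro n hn
        rw [Finset.mem_Ioo] at hn ⊢
        constructor <;> linarith [hn.1, hn.2]
      rw [← Finset.sum_sdiff hsub, Finset.sum_range_succ, mul_add]
      have := hblock K (Finset.Ioo (-(m : ℤ) ^ (K + 1)) ((m : ℤ) ^ (K + 1)) \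
        Finset.Ioo (-(m : ℤ) ^ K) ((m : ℤ) ^ K)) (fun n hn => by
          rw [Finset.mem_sdiff, Finset.mem_Ioo, Finset.mem_Ioo] at hn
          constructor
          · by_contra hcon
            push Not at hcon
            exact hn.2 (abs_lt.1 hcon)
          · exact abs_lt.2 hn.1)
      linarith
  refine summable_of_sum_le (c := ‖fourierCoeff g 0‖ ^ p + D * (θ / (1 - θ)))
    (fun n => by positivity) fun u => ?_
  obtain ⟨K, hK⟩ : ∃ K : ℕ, u ⊆ Finset.Ioo (-(m : ℤ) ^ K) ((m : ℤ) ^ K) := by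
    obtain ⟨B, hB⟩ : ∃ B : ℕ, ∀ n ∈ u, |n| ≤ B := by
      refine ⟨u.sup Int.natAbs, fun n hn => ?_⟩
      have := Finset.le_sup (f := Int.natAbs) hn
      rw [Int.abs_eq_natAbs]
      exact_mod_cast this
    refine ⟨B, fun n hn => ?_⟩
    rw [Finset.mem_Ioo, ← abs_lt]
    refine lt_of_le_of_lt (hB n hn) ?_
    have : B < m ^ B := Nat.lt_pow_self (by omega)
    exact_mod_cast this
  have hgeo : ∑ i ∈ Finset.range K, θ ^ (i + 1) ≤ θ / (1 - θ) := by
    have h1 : ∑ i ∈ Finset.range K, θ ^ (i + 1) = θ * ∑ i ∈ Finset.range K, θ ^ i := by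
      rw [Finset.mul_sum]
      exact Finset.sum_congr rfl fun i _ => by rw [pow_succ]; ring
    rw [h1, div_eq_mul_inv]
    gcongr
    have h2 := hasSum_geometric_of_lt_one hθ0.le hθ
    exact sum_le_hasSum _ (fun i _ => by positivity) h2
  calc ∑ n ∈ u, ‖fourierCoeff g n‖ ^ p
      ≤ ∑ n ∈ Finset.Ioo (-(m : ℤ) ^ K) ((m : ℤ) ^ K), ‖fourierCoeff g n‖ ^ p :=
        Finset.sum_le_sum_of_subset_of_nonneg hK fun _ _ _ => by positivity
    _ ≤ _ := hpart K
    _ ≤ _ := by gcongr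

end Pool.Agent.Helper86
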