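import Pool.Agent.Helper86.CantorLike
import Pool.Agent.Helper86.FourierBlock

/-!
# Superpositions of Cantor-type functions
-/

set_option autoImplicit false

open Filter Topology MeasureTheory

namespace Pool.Agent.Helper86

namespace CantorLike

variable {m b : ℕ} {Ψ : ℝ → ℝ}

lemma add_nat (h : CantorLike m b Ψ) (x : ℝ) (n : ℕ) : Ψ (x + n) = Ψ x + n := by
  induction n with
  | zero => simp
  | succ n ih =>
    push_cast
    rw [← add_assoc, h.add_one, ih]; ring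

lemma add_int (h : CantorLike m b Ψ) (x : ℝ) (n : ℤ) : Ψ (x + n) = Ψ x + n := by
  obtain ⟨k, rfl | rfl⟩ := n.eq_nat_or_neg
  · exact_mod_cast h.add_nat x k
  · have := h.add_nat (x + ((-(k : ℤ) : ℤ) : ℝ)) k
    push_cast at this ⊢
    rw [neg_add_cancel_right] at this
    linarith

lemma int_cast (h : CantorLike m b Ψ) (n : ℤ) : Ψ n = n := by
  have := h.add_int 0 n
  simpa [h.zero] using this

lemma dist_le (h : CantorLike m b Ψ) (x : ℝ) : |Ψ x - x| ≤ 1 := by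
  have h1 := h.mono (Int.floor_le x)
  have h2 := h.mono (Int.lt_floor_add_one x).le
  have h3 := h.int_cast (⌊x⌋ + 1)
  push_cast at h3
  rw [h.int_cast] at h1
  rw [h3] at h2
  have h4 := Int.floor_le x
  have h5 := Int.lt_floor_add_one x
  rw [abs_le]; constructor <;> linarith

end CantorLike

/-- the superposition `H x = ∑ a_j Ψ(m^j x) / m^j`. -/
noncomputable def Hmap (m : ℕ) (a : ℕ → ℝ) (Ψ : ℝ → ℝ) (x : ℝ) : ℝ :=
  ∑' j, a j * (Ψ ((m : ℝ) ^ j * x) / (m : ℝ) ^ j)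

section

variable {m b : ℕ} {Ψ : ℝ → ℝ} {a : ℕ → ℝ}

lemma summable_Hmap (hΨ : CantorLike m b Ψ) (hm : 1 ≤ m) (ha : ∀ j, 0 < a j) (hs : HasSum a 1)
    (x : ℝ) : Summable fun j => a j * (Ψ ((m : ℝ) ^ j * x) / (m : ℝ) ^ j) := by
  have hm1 : (1 : ℝ) ≤ m := by exact_mod_cast hm
  refine Summable.of_norm_bounded (hs.summable.mul_right (|x| + 1)) fun j => ?_
  rw [norm_mul, Real.norm_of_nonneg (ha j).le]
  refine mul_le_mul_of_nonneg_left ?_ (ha j).le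
  have hmj : (1 : ℝ) ≤ (m : ℝ) ^ j := one_le_pow₀ hm1
  have hmj0 : (0 : ℝ) < (m : ℝ) ^ j := by linarith
  rw [norm_div, Real.norm_of_nonneg hmj0.le, div_le_iff₀ hmj0]
  have h1 := hΨ.dist_le ((m : ℝ) ^ j * x)
  have h2 : |Ψ ((m : ℝ) ^ j * x)| ≤ |Ψ ((m : ℝ) ^ j * x) - (m : ℝ) ^ j * x| +
      |(m : ℝ) ^ j * x| := by
    have := abs_add_le (Ψ ((m : ℝ) ^ j * x) - (m : ℝ) ^ j * x) ((m : ℝ) ^ j * x)
    simpa using this
  rw [abs_mul, abs_of_pos hmj0] at h2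
  rw [Real.norm_eq_abs]
  nlinarith [abs_nonneg x]

lemma Hmap_add_one (hΨ : CantorLike m b Ψ) (hm : 1 ≤ m) (ha : ∀ j, 0 < a j) (hs : HasSum a 1)
    (x : ℝ) : Hmap m a Ψ (x + 1) = Hmap m a Ψ x + 1 := by
  have hm0 : (0 : ℝ) < m := by exact_mod_cast (by omega : 0 < m)
  unfold Hmap
  have h1 : ∀ j, a j * (Ψ ((m : ℝ) ^ j * (x + 1)) / (m : ℝ) ^ j) =
      a j * (Ψ ((m : ℝ) ^ j * x) / (m : ℝ) ^ j) + a j := by
    intro j
    have := hΨ.add_nat ((m : ℝ) ^ j * x) (m ^ j)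
    push_cast at this
    rw [mul_add, mul_one, this]
    field_simp
  simp_rw [h1]
  rw [(summable_Hmap hΨ hm ha hs x).tsum_add hs.summable, hs.tsum_eq]

lemma Hmap_mono (hΨ : CantorLike m b Ψ) (hm : 1 ≤ m) (ha : ∀ j, 0 < a j) (hs : HasSum a 1) :
    Monotone (Hmap m a Ψ) := by
  intro x y hxy
  refine (summable_Hmap hΨ hm ha hs x).tsum_le_tsum (fun j => ?_) (summable_Hmap hΨ hm ha hs y)
  have hm0 : (0 : ℝ) < m := by exact_mod_cast (by omega : 0 < m)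
  have h1 : (m : ℝ) ^ j * x ≤ (m : ℝ) ^ j * y := by gcongr
  have h2 := hΨ.mono h1
  have h3 := (ha j).le
  gcongr

lemma Hmap_strictMono (hΨ : CantorLike m b Ψ) (hm : 2 ≤ m) (ha : ∀ j, 0 < a j)
    (hs : HasSum a 1) : StrictMono (Hmap m a Ψ) := by
  intro x y hxy
  have hm0 : (0 : ℝ) < m := by exact_mod_cast (by omega : 0 < m)
  have hm1 : (1 : ℝ) < m := by exact_mod_cast (by omega : 1 < m)
  obtain ⟨j, hj⟩ : ∃ j : ℕ, 1 / (y - x) < (m : ℝ) ^ j := pow_unbounded_of_one_lt _ hm1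
  refine (summable_Hmap hΨ (by omega) ha hs x).tsum_lt_tsum (i := j) (fun i => ?_) ?_
    (summable_Hmap hΨ (by omega) ha hs y)
  · have h1 : (m : ℝ) ^ i * x ≤ (m : ℝ) ^ i * y := by gcongr
    have h2 := hΨ.mono h1
    have h3 := (ha i).le
    gcongr
  · have hd : 0 < y - x := by linarith
    have h1 : (m : ℝ) ^ j * x + 1 ≤ (m : ℝ) ^ j * y := by
      rw [div_lt_iff₀ hd] at hj
      linarith
    have h2 := hΨ.mono h1
    rw [hΨ.add_one] at h2
    have h3 := ha j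
    have h4 : Ψ ((m : ℝ) ^ j * x) < Ψ ((m : ℝ) ^ j * y) := by linarith
    gcongr

lemma Hmap_holder (hΨ : CantorLike m b Ψ) (hb : 1 ≤ b) (hbm : b ≤ m) (ha : ∀ j, 0 < a j)
    (hs : HasSum a 1) (k : ℕ) (x y : ℝ) (hxy : y ≤ x + 1 / (m : ℝ) ^ k) :
    Hmap m a Ψ y ≤ Hmap m a Ψ x + 1 / (b : ℝ) ^ k := by
  have hm : 1 ≤ m := hb.trans hbm
  have hm0 : (0 : ℝ) < m := by exact_mod_cast (by omega : 0 < m)
  have hb0 : (0 : ℝ) < b := by exact_mod_cast (by omega : 0 < b)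
  have hbm' : (b : ℝ) ≤ m := by exact_mod_cast hbm
  have e1 : Hmap m a Ψ x + 1 / (b : ℝ) ^ k =
      ∑' j, (a j * (Ψ ((m : ℝ) ^ j * x) / (m : ℝ) ^ j) + a j * (1 / (b : ℝ) ^ k)) := by
    rw [(summable_Hmap hΨ hm ha hs x).tsum_add (hs.summable.mul_right _), tsum_mul_right,
      hs.tsum_eq, one_mul]
    rfl
  rw [e1]
  refine (summable_Hmap hΨ hm ha hs y).tsum_le_tsum (fun j => ?_)
    ((summable_Hmap hΨ hm ha hs x).add (hs.summable.mul_right _))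
  rw [← mul_add]
  refine mul_le_mul_of_nonneg_left ?_ (ha j).le
  have hmj0 : (0 : ℝ) < (m : ℝ) ^ j := by positivity
  rw [div_le_iff₀ hmj0, add_mul, div_mul_cancel₀ _ hmj0.ne']
  rcases le_or_gt j k with hjk | hjk
  · obtain ⟨i, rfl⟩ := Nat.exists_eq_add_of_le hjk
    have h1 : (m : ℝ) ^ j * y ≤ (m : ℝ) ^ j * x + 1 / (m : ℝ) ^ i := by
      calc (m : ℝ) ^ j * y ≤ (m : ℝ) ^ j * (x + 1 / (m : ℝ) ^ (j + i)) := by gcongr
        _ = _ := by rw [pow_add]; field_simp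
    have h2 := hΨ.holder i _ _ h1
    refine h2.trans ?_
    gcongr
    rw [pow_add, div_mul_eq_mul_div, one_mul, div_le_div_iff₀ (by positivity) (by positivity),
      one_mul]
    gcongr
  · obtain ⟨i, rfl⟩ := Nat.exists_eq_add_of_lt hjk
    have e2 : (m : ℝ) ^ (k + i + 1) = (m : ℝ) ^ k * (m : ℝ) ^ (i + 1) := by ring
    have h1 : (m : ℝ) ^ (k + i + 1) * y ≤ (m : ℝ) ^ (k + i + 1) * x + ((m ^ (i + 1) : ℕ) : ℝ) := by
      calc (m : ℝ) ^ (k + i + 1) * y ≤ (m : ℝ) ^ (k + i + 1) * (x + 1 / (m : ℝ) ^ k) := by gcongr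
        _ = _ := by push_cast; rw [e2]; field_simp
    have h2 := hΨ.mono h1
    rw [hΨ.add_nat] at h2
    refine h2.trans ?_
    gcongr
    push_cast
    have h3 : (b : ℝ) ^ k ≤ (m : ℝ) ^ k := by gcongr
    rw [div_mul_eq_mul_div, one_mul, le_div_iff₀ (by positivity), e2, mul_comm]
    gcongr

lemma Hmap_continuous (hΨ : CantorLike m b Ψ) (hb : 2 ≤ b) (hbm : b ≤ m) (ha : ∀ j, 0 < a j)
    (hs : HasSum a 1) : Continuous (Hmap m a Ψ) := by
  have hm0 : (0 : ℝ) < m := by exact_mod_cast (by omega : 0 < m)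
  have hb0 : (0 : ℝ) < b := by exact_mod_cast (by omega : 0 < b)
  have hb1 : (1 : ℝ) < b := by exact_mod_cast (by omega : 1 < b)
  have hmono := Hmap_mono hΨ (by omega) ha hs
  rw [Metric.continuous_iff]
  intro x ε hε
  obtain ⟨k, hk⟩ : ∃ k : ℕ, 1 / ε < (b : ℝ) ^ k := pow_unbounded_of_one_lt _ hb1
  have hk' : 1 / (b : ℝ) ^ k < ε := by
    rw [div_lt_iff₀ hε] at hk
    rw [div_lt_iff₀ (by positivity)]
    linarith
  refine ⟨1 / (m : ℝ) ^ k, by positivity, fun y hy => ?_⟩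
  rw [Real.dist_eq, abs_lt] at hy
  have h1 := Hmap_holder hΨ (by omega) hbm ha hs k x y (by linarith)
  have h2 := Hmap_holder hΨ (by omega) hbm ha hs k y x (by linarith)
  rw [Real.dist_eq, abs_lt]
  constructor <;> linarith

/-- if the levels below `i` do not move, then `H` moves by at most twice the tail. -/
lemma Hmap_tail (hΨ : CantorLike m b Ψ) (hm : 1 ≤ m) (ha : ∀ j, 0 < a j) (hs : HasSum a 1)
    (i : ℕ) {x y : ℝ} (hy : y ≤ x + 2)
    (hlev : ∀ j < i, Ψ ((m : ℝ) ^ j * y) = Ψ ((m : ℝ) ^ j * x)) :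
    Hmap m a Ψ y - Hmap m a Ψ x ≤ 2 * ∑' j, a (j + i) := by
  have hm0 : (0 : ℝ) < m := by exact_mod_cast (by omega : 0 < m)
  have hsx := summable_Hmap hΨ hm ha hs x
  have hsy := summable_Hmap hΨ hm ha hs y
  have e1 : Hmap m a Ψ y - Hmap m a Ψ x =
      ∑' j, (a j * (Ψ ((m : ℝ) ^ j * y) / (m : ℝ) ^ j) -
        a j * (Ψ ((m : ℝ) ^ j * x) / (m : ℝ) ^ j)) := (hsy.tsum_sub hsx).symm
  have hsd := hsy.sub hsx
  rw [e1, ← hsd.sum_add_tsum_nat_add i, ← tsum_mul_left]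
  have h0 : ∑ j ∈ Finset.range i, (a j * (Ψ ((m : ℝ) ^ j * y) / (m : ℝ) ^ j) -
        a j * (Ψ ((m : ℝ) ^ j * x) / (m : ℝ) ^ j)) = 0 := by
    refine Finset.sum_eq_zero fun j hj => ?_
    rw [hlev j (Finset.mem_range.1 hj)]; ring
  rw [h0, zero_add]
  refine ((summable_nat_add_iff i).2 hsd).tsum_le_tsum (fun j => ?_)
    (((summable_nat_add_iff i).2 hs.summable).mul_left 2)
  rw [← mul_sub, ← sub_div, mul_comm 2]
  refine mul_le_mul_of_nonneg_left ?_ (ha _).le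
  have hmj0 : (0 : ℝ) < (m : ℝ) ^ (j + i) := by positivity
  rw [div_le_iff₀ hmj0]
  have h1 : (m : ℝ) ^ (j + i) * y ≤ (m : ℝ) ^ (j + i) * x + ((2 * m ^ (j + i) : ℕ) : ℝ) := by
    push_cast
    nlinarith
  have h2 := hΨ.mono h1
  rw [hΨ.add_nat] at h2
  push_cast at h2
  linarith

/-- the `L²` modulus of continuity of `F ∘ H`. -/
theorem modulus_bound (hΨ : CantorLike m b Ψ) (hb : 2 ≤ b) (hbm : b < m) (ha : ∀ j, 0 < a j)
    (hs : HasSum a 1) {F : ℝ → ℝ} (hF : Continuous F) {M : ℝ} (hM : 0 ≤ M)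
    (hmod : ∀ (i : ℕ) (s t : ℝ), |s - t| ≤ 2 * ∑' j, a (j + i) →
      |F s - F t| ≤ M * ((b : ℝ) / m) ^ i)
    (k : ℕ) {t : ℝ} (ht0 : 0 ≤ t) (ht : t ≤ 1 / (m : ℝ) ^ k) :
    ∫ x in (0 : ℝ)..1, (F (Hmap m a Ψ (x + t)) - F (Hmap m a Ψ x)) ^ 2 ≤
      M ^ 2 * (1 + 2 / (1 - (b : ℝ) / m)) * ((b : ℝ) / m) ^ k := by
  have hm0 : (0 : ℝ) < m := by exact_mod_cast (by omega : 0 < m)
  have hb0 : (0 : ℝ) < b := by exact_mod_cast (by omega : 0 < b)
  have hm1 : (1 : ℝ) ≤ m := by exact_mod_cast (by omega : 1 ≤ m)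
  set ρ : ℝ := (b : ℝ) / m with hρ
  have hρ0 : 0 < ρ := by positivity
  have hρ1 : ρ < 1 := by
    rw [hρ, div_lt_one hm0]; exact_mod_cast hbm
  set H := Hmap m a Ψ with hHdef
  have hHcont : Continuous H := Hmap_continuous hΨ hb hbm.le ha hs
  have hHmono : Monotone H := Hmap_mono hΨ (by omega) ha hs
  have hmk0 : (0 : ℝ) < (m : ℝ) ^ k := by positivity
  have hmk1 : (1 : ℝ) ≤ (m : ℝ) ^ k := one_le_pow₀ hm1
  -- increments of the levels
  set D : ℕ → ℕ → ℝ := fun j l =>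
    Ψ ((m : ℝ) ^ j * (((l + 2 : ℕ) : ℝ) / (m : ℝ) ^ k)) -
      Ψ ((m : ℝ) ^ j * ((l : ℝ) / (m : ℝ) ^ k)) with hD
  have hD0 : ∀ j l, 0 ≤ D j l := by
    intro j l
    simp only [hD, sub_nonneg]
    refine hΨ.mono ?_
    have : (l : ℝ) ≤ ((l + 2 : ℕ) : ℝ) := by push_cast; linarith
    gcongr
  have harg : ∀ j, j ≤ k → ∀ l : ℕ, (m : ℝ) ^ j * ((l : ℝ) / (m : ℝ) ^ k) =
      ((l : ℤ) : ℝ) / (m : ℝ) ^ (k - j) := by
    intro j hj l
    obtain ⟨i, rfl⟩ := Nat.exists_eq_add_of_le hj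
    rw [Nat.add_sub_cancel_left, pow_add]
    push_cast
    field_simp
  have hDone : ∀ j, j < k → ∀ l, D j l ≠ 0 → 1 ≤ (b : ℝ) ^ (k - j) * D j l := by
    intro j hj l hne
    obtain ⟨z1, hz1⟩ := hΨ.integral (k - j) ((l + 2 : ℕ) : ℤ)
    obtain ⟨z2, hz2⟩ := hΨ.integral (k - j) ((l : ℕ) : ℤ)
    have e : (b : ℝ) ^ (k - j) * D j l = ((z1 - z2 : ℤ) : ℝ) := by
      simp only [hD]
      rw [harg j hj.le, harg j hj.le, hz1, hz2]
      push_cast
      field_simp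
    have hpos : 0 < (b : ℝ) ^ (k - j) * D j l :=
      mul_pos (by positivity) (lt_of_le_of_ne (hD0 j l) (Ne.symm hne))
    rw [e] at hpos ⊢
    have : 0 < z1 - z2 := by exact_mod_cast hpos
    exact_mod_cast this
  have hDsum : ∀ j, j < k → ∑ l ∈ Finset.range (m ^ k), D j l = 2 * (m : ℝ) ^ j := by
    intro j hj
    set u : ℕ → ℝ := fun l => Ψ ((m : ℝ) ^ j * ((l : ℝ) / (m : ℝ) ^ k)) with hu
    have h1 : ∀ l, D j l = (u (l + 1) - u l) + (u (l + 1 + 1) - u (l + 1)) := by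
      intro l; simp only [hD, hu]; ring_nf
    simp_rw [h1]
    rw [Finset.sum_add_distrib, Finset.sum_range_sub,
      Finset.sum_range_sub (fun l => u (l + 1))]
    have h2 : u (m ^ k) = u 0 + (m : ℝ) ^ j := by
      simp only [hu]
      have : (m : ℝ) ^ j * (((m ^ k : ℕ) : ℝ) / (m : ℝ) ^ k) = 0 + ((m ^ j : ℕ) : ℝ) := by
        push_cast; field_simp; ring
      rw [this, hΨ.add_nat]
      push_cast; simp
    have h3 : u (m ^ k + 1) = u (0 + 1) + (m : ℝ) ^ j := by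
      simp only [hu]
      have : (m : ℝ) ^ j * (((m ^ k + 1 : ℕ) : ℝ) / (m : ℝ) ^ k) =
          (m : ℝ) ^ j * (((0 + 1 : ℕ) : ℝ) / (m : ℝ) ^ k) + ((m ^ j : ℕ) : ℝ) := by
        push_cast; field_simp; ring
      rw [this, hΨ.add_nat]
      push_cast; ring
    rw [h2, h3]; ring
  -- pointwise bound
  have hpt : ∀ l : ℕ, ∀ x ∈ Set.Icc ((l : ℝ) / (m : ℝ) ^ k) (((l + 1 : ℕ) : ℝ) / (m : ℝ) ^ k),
      (F (H (x + t)) - F (H x)) ^ 2 ≤
        M ^ 2 * (ρ ^ (2 * k) + ∑ j ∈ Finset.range k, ρ ^ (2 * j) * ((b : ℝ) ^ (k - j) * D j l)) := by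
    intro l x hx
    -- the key step
    have hkey : ∀ i ≤ k, (∀ j < i, D j l = 0) → |F (H (x + t)) - F (H x)| ≤ M * ρ ^ i := by
      intro i hi hz
      refine hmod i _ _ ?_
      have hH1 : H x ≤ H (x + t) := hHmono (by linarith)
      rw [abs_of_nonneg (by linarith)]
      have hx2 : x + t ≤ ((l + 2 : ℕ) : ℝ) / (m : ℝ) ^ k := by
        have := hx.2
        have e : ((l + 2 : ℕ) : ℝ) / (m : ℝ) ^ k =
          ((l + 1 : ℕ) : ℝ) / (m : ℝ) ^ k + 1 / (m : ℝ) ^ k := by push_cast; ring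
        linarith
      have hH2 : H (x + t) ≤ H (((l + 2 : ℕ) : ℝ) / (m : ℝ) ^ k) := hHmono hx2
      have hH3 : H ((l : ℝ) / (m : ℝ) ^ k) ≤ H x := hHmono hx.1
      have h4 := Hmap_tail hΨ (by omega) ha hs i (x := (l : ℝ) / (m : ℝ) ^ k)
        (y := ((l + 2 : ℕ) : ℝ) / (m : ℝ) ^ k) (by
          have e : ((l + 2 : ℕ) : ℝ) / (m : ℝ) ^ k = (l : ℝ) / (m : ℝ) ^ k + 2 / (m : ℝ) ^ k := by
            push_cast; ring
          have : 2 / (m : ℝ) ^ k ≤ 2 := div_le_self (by norm_num) hmk1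
          linarith) (fun j hj => sub_eq_zero.1 (hz j hj))
      linarith
    have hnn : ∀ j ∈ Finset.range k, 0 ≤ ρ ^ (2 * j) * ((b : ℝ) ^ (k - j) * D j l) := fun j _ =>
      mul_nonneg (by positivity) (mul_nonneg (by positivity) (hD0 j l))
    by_cases hex : ∃ j, j < k ∧ D j l ≠ 0
    · classical
      have hi := Nat.find_spec hex
      set i := Nat.find hex with hidef
      have hz : ∀ j < i, D j l = 0 := by
        intro j hj
        by_contra hne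
        exact Nat.find_min hex hj ⟨hj.trans hi.1, hne⟩
      have h1 := hkey i hi.1.le hz
      have h2 : (F (H (x + t)) - F (H x)) ^ 2 ≤ (M * ρ ^ i) ^ 2 := by
        rw [← sq_abs]; gcongr
      refine h2.trans ?_
      rw [mul_pow, ← pow_mul, mul_comm i 2]
      refine mul_le_mul_of_nonneg_left ?_ (by positivity)
      have h3 : ρ ^ (2 * i) ≤ ρ ^ (2 * i) * ((b : ℝ) ^ (k - i) * D i l) :=
        le_mul_of_one_le_right (by positivity) (hDone i hi.1 l hi.2)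
      have h4 := Finset.single_le_sum hnn (Finset.mem_range.2 hi.1)
      have h5 : 0 ≤ ρ ^ (2 * k) := by positivity
      linarith
    · push Not at hex
      have h1 := hkey k le_rfl hex
      have h2 : (F (H (x + t)) - F (H x)) ^ 2 ≤ (M * ρ ^ k) ^ 2 := by
        rw [← sq_abs]; gcongr
      refine h2.trans ?_
      rw [mul_pow, ← pow_mul, mul_comm k 2]
      refine mul_le_mul_of_nonneg_left ?_ (by positivity)
      have := Finset.sum_nonneg hnn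
      linarith
  -- integrate
  have hcont : Continuous fun x => (F (H (x + t)) - F (H x)) ^ 2 := by fun_prop
  have hsplit : ∫ x in (0 : ℝ)..1, (F (H (x + t)) - F (H x)) ^ 2 =
      ∑ l ∈ Finset.range (m ^ k), ∫ x in ((l : ℝ) / (m : ℝ) ^ k)..(((l + 1 : ℕ) : ℝ) / (m : ℝ) ^ k),
        (F (H (x + t)) - F (H x)) ^ 2 := by
    rw [intervalIntegral.sum_integral_adjacent_intervals
      (a := fun l : ℕ => (l : ℝ) / (m : ℝ) ^ k) fun l _ => hcont.intervalIntegrable _ _]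
    congr 1
    · simp
    · push_cast; field_simp
  rw [hsplit]
  have hpiece : ∀ l ∈ Finset.range (m ^ k),
      ∫ x in ((l : ℝ) / (m : ℝ) ^ k)..(((l + 1 : ℕ) : ℝ) / (m : ℝ) ^ k),
        (F (H (x + t)) - F (H x)) ^ 2 ≤ 1 / (m : ℝ) ^ k *
        (M ^ 2 * (ρ ^ (2 * k) + ∑ j ∈ Finset.range k, ρ ^ (2 * j) * ((b : ℝ) ^ (k - j) * D j l))) := by
    intro l _
    have hle : (l : ℝ) / (m : ℝ) ^ k ≤ ((l + 1 : ℕ) : ℝ) / (m : ℝ) ^ k := by
      push_cast; gcongr; linarith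
    have := intervalIntegral.integral_mono_on (μ := volume) hle (hcont.intervalIntegrable _ _)
      (intervalIntegrable_const (c := M ^ 2 * (ρ ^ (2 * k) +
        ∑ j ∈ Finset.range k, ρ ^ (2 * j) * ((b : ℝ) ^ (k - j) * D j l)))) (hpt l)
    refine this.trans (le_of_eq ?_)
    rw [intervalIntegral.integral_const, smul_eq_mul]
    congr 1
    push_cast; ring
  refine (Finset.sum_le_sum hpiece).trans ?_
  rw [← Finset.mul_sum, ← Finset.mul_sum, Finset.sum_add_distrib, Finset.sum_const,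
    Finset.card_range, Finset.sum_comm]
  have hinner : ∑ j ∈ Finset.range k, ∑ l ∈ Finset.range (m ^ k),
      ρ ^ (2 * j) * ((b : ℝ) ^ (k - j) * D j l) =
      (m : ℝ) ^ k * (2 * ρ ^ k * ∑ j ∈ Finset.range k, ρ ^ j) := by
    rw [Finset.mul_sum, Finset.mul_sum]
    refine Finset.sum_congr rfl fun j hj => ?_
    have hj' := Finset.mem_range.1 hj
    rw [← Finset.mul_sum, ← Finset.mul_sum, hDsum j hj']
    obtain ⟨i, rfl⟩ := Nat.exists_eq_add_of_le hj'.le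
    rw [Nat.add_sub_cancel_left]
    rw [hρ]
    simp only [div_pow]
    field_simp
    ring
  rw [hinner, nsmul_eq_mul]
  have hgeo : ∑ j ∈ Finset.range k, ρ ^ j ≤ 1 / (1 - ρ) := by
    rw [one_div]
    exact sum_le_hasSum _ (fun i _ => by positivity) (hasSum_geometric_of_lt_one hρ0.le hρ1)
  have hρk : ρ ^ (2 * k) ≤ ρ ^ k := pow_le_pow_of_le_one hρ0.le hρ1.le (by omega)
  calc 1 / (m : ℝ) ^ k * (M ^ 2 * (((m ^ k : ℕ) : ℝ) * ρ ^ (2 * k) +
        (m : ℝ) ^ k * (2 * ρ ^ k * ∑ j ∈ Finset.range k, ρ ^ j)))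
      = M ^ 2 * (ρ ^ (2 * k) + 2 * ρ ^ k * ∑ j ∈ Finset.range k, ρ ^ j) := by
        push_cast; field_simp
    _ ≤ M ^ 2 * (ρ ^ k + 2 * ρ ^ k * (1 / (1 - ρ))) := by gcongr
    _ = _ := by ring

end

end Pool.Agent.Helper86
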